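import Pool.Agent.W5h72.BR.Tp6

/-!
# Boundary rigidity: finitely many derivatives in two boundary points are enough

`M` is the closed unit ball of `ℝⁿ`, `n ≥ 3` (a compact manifold with a simple metric is
diffeomorphic to it), `g` and `g'` are simple metrics on `M` with the same boundary distance
function, and `b`, `c` are any two boundary points, which may coincide. Then `g` and `g'` are
isometric by a diffeomorphism of `M` which is the identity on the boundary if and only if for each
interior point `x` there is an interior point `y` such that the function `d_{g'}(y, ·) - d_g(x, ·)`
on the boundary has a multiple critical point in `b` and `c` in the following sense: its derivatives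
of order one and two vanish in `b` and in `c`, and if `b = c` also the third derivative.

Sketch of the proof of the sufficiency. The first derivative in `b` shows that `y = Y(x)` is on the
`g'`-geodesic which corresponds to the `g`-geodesic from `b` through `x`, and the second derivative
determines its position on it, because the Hessian in `b` of the distance from a point is strictly
monotone along the geodesic. By the implicit function theorem `Y` is smooth. Let `r₁`, `r₂` be the
`g`-distances of `x` from `b` and `c`, and `u₁`, `u₂` the `g'`-distances of `Y(x)` from `b` and `c`.
The derivatives with respect to `x` of the equations for the jets in `b` show that the inverse `T` of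
the adjoint of the derivative of `Y` restricts to a similarity of the orthogonal complements of the
two geodesics from `b`; in the same way for `c`. If moreover `du₁ = dr₁`, then `Y` is an isometry.
* Case `b ≠ c`. Since `n ≥ 3` the factors of the two similarities agree. Linear algebra gives
  `d(u₁ + u₂) = κ d(r₁ + r₂)` outside of the geodesic from `b` to `c`, with a function `κ`, and that
  `du₁ = dr₁` where `κ = 1`. Hence `u₁ + u₂` is constant along the ellipsoids with the foci `b` and
  `c`. These reach the boundary, where `u₁ + u₂ = r₁ + r₂`. So `κ = 1`.
* Case `b = c`. The third derivatives give that `T` maps the direction of `b` to a multiple of the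
  direction of `b`. Hence `u₁ / r₁` is constant along the spheres with centre `b`. These reach the
  boundary, where the quotient is one. So `u₁ = r₁`.
-/

open Set Metric
open scoped ContDiff RealInnerProductSpace

namespace Pool.Agent.Results.MP_07cd05_gt.JetsAtTwoPoints

open Pool.Agent.W5h72.BR

theorem result (n : ℕ) (hn : 3 ≤ n)
    (g g' : EuclideanSpace ℝ (Fin n) →
      EuclideanSpace ℝ (Fin n) →L[ℝ] EuclideanSpace ℝ (Fin n) →L[ℝ] ℝ)
    (hg : IsSimple g) (hg' : IsSimple g')
    (hd : ∀ p ∈ sphere (0 : EuclideanSpace ℝ (Fin n)) 1,
      ∀ q ∈ sphere (0 : EuclideanSpace ℝ (Fin n)) 1, gdist g p q = gdist g' p q)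
    (b c : EuclideanSpace ℝ (Fin n)) (hb : b ∈ sphere (0 : EuclideanSpace ℝ (Fin n)) 1)
    (hc : c ∈ sphere (0 : EuclideanSpace ℝ (Fin n)) 1) :
    BoundaryIsometric g g' ↔ JetsAgreeAt g g' b c :=
  jets_at_two_points (by rw [finrank_euclideanSpace_fin]; omega) hg hg' hd hb hc

end Pool.Agent.Results.MP_07cd05_gt.JetsAtTwoPoints
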