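import Pool.Agent.W5h72.BR.Loc2

/-!
# Boundary rigidity: local criteria at one boundary point

`M` is the closed unit ball of `ℝⁿ`, `n ≥ 3` (a compact manifold with a simple metric is
diffeomorphic to it), `g` and `g'` are simple metrics on `M` with the same boundary distance
function, and `b` is any boundary point. The following are equivalent.

1. `g` and `g'` are isometric by a diffeomorphism of `M` which is the identity on the boundary.
2. Close pairs of geodesics which are close to a geodesic from `b`, and which meet for `g`, meet
   for `g'`: each boundary point `q ≠ b` has a `δ > 0` such that this holds if the end points of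
   the two geodesics are `δ`-close to `b` and `q`.
3. For each interior point `x`, all the boundary points `p` in some neighbourhood of `b` have an
   interior point `y`, depending on `x` and `p`, such that `d_{g'}(y, ·) - d_g(x, ·)`, restricted to
   the boundary, has differential `0` and Hessian `0` at `p`.
4. The same with `y` depending also on a tangent vector `ξ` of the boundary at `p`, where the
   Hessian is only required to vanish on `ξ` (paired with all vectors).

Sketch of the proof. Limits of the meeting points in 2. give the points `y` of 4. If these exist for
all tangent vectors `ξ` at `p`, then they agree, because the Hessians of the distance from a point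
of a geodesic are strictly monotone along the geodesic. The common point `F_x(p)` is a smooth
function of `p`, whose derivative is tangent to the geodesic from `F_x(p)` to `p`; since the boundary
has dimension at least two, this forces the derivative to vanish, and `F_x` is constant near `b`.
Then `d_{g'}(F_x(b), ·) - d_g(x, ·)` is constant on the boundary near `b`. In particular its
derivatives of order at most three vanish in `b`, and this implies 1. (see `JetsAtTwoPoints`).
-/

open Set Metric
open scoped ContDiff RealInnerProductSpace

namespace Pool.Agent.Results.MP_07cd05_gt.LocalCriteria

open Pool.Agent.W5h72.BR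

theorem result (n : ℕ) (hn : 3 ≤ n)
    (g g' : EuclideanSpace ℝ (Fin n) →
      EuclideanSpace ℝ (Fin n) →L[ℝ] EuclideanSpace ℝ (Fin n) →L[ℝ] ℝ)
    (hg : IsSimple g) (hg' : IsSimple g')
    (hd : ∀ p ∈ sphere (0 : EuclideanSpace ℝ (Fin n)) 1,
      ∀ q ∈ sphere (0 : EuclideanSpace ℝ (Fin n)) 1, gdist g p q = gdist g' p q)
    (b : EuclideanSpace ℝ (Fin n)) (hb : b ∈ sphere (0 : EuclideanSpace ℝ (Fin n)) 1) :
    List.TFAE [BoundaryIsometric g g', NearMeetingAt g g' b, TwoJetsNear g g' b,
      DirectionalTwoJetsNear g g' b] :=
  local_criteria (by rw [finrank_euclideanSpace_fin]; omega) hg hg' hd hb

end Pool.Agent.Results.MP_07cd05_gt.LocalCriteria
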