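import Pool.Agent.W9h56.BE.Final

/-!
# Boundary rigidity: the mean stretch of a map between two metrics

`M` is the closed unit ball of a Euclidean space `E` of dimension `n ≥ 2` (a compact manifold with a
simple metric is diffeomorphic to it), `g` is a simple metric on `M`, `g'` is a continuous
Riemannian metric on `M` with `d_{g'} ≥ d_g` on `∂M × ∂M`, and `φ : M → M` is a `C¹` map which is
the identity on `∂M`. Let `S(x)` be the mean of `|dφ(v)|_{g'} / |v|_g` over the directions `v` at
`x`, and let `J` be the Jacobian of `φ : (M, g) → (M, g')`.

* `∫_M S dV_g ≥ vol(g)`, with equality if and only if `φ^* g' = g` on `M`.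
* If `φ` is bijective and `S ≤ 1 + c (J - 1)` on `M` with a constant `c > 0`, then
  `vol(g') ≥ vol(g)`, with equality if and only if `φ^* g' = g` on `M`.
* If `g'` is also simple and `d_{g'} = d_g` on `∂M × ∂M`, then `vol(g') = vol(g)`, and `g`, `g'` are
  isometric by a diffeomorphism which is the identity on `∂M` if and only if some `φ` has
  `∫_M S dV_g ≤ vol(g)`, if and only if some bijective `φ` satisfies `S ≤ 1 + c (J - 1)` on `M` with
  some real constant `c`.

For conformal maps, `φ^* g' = ρ g`, the condition with `c = 1 / n` is Bernoulli's inequality
`s ≤ 1 + (s ^ n - 1) / n` for `s = √ρ` (see `inCone_of_conformal`), and the last point is the known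
conformal rigidity. Near `g` the condition with `c = 1 / n` bounds the trace free part of `g' - g`
(for `φ = id`) by a multiple of the trace, at each point.

Sketch of the proof.
* For a fixed boundary point `p` the gradient of the homogeneous distance function
  `D(x, z) = |z| d(x, z / |z|)` in the second variable maps the interior of `M` injectively to `ℝⁿ`
  and the geodesics issued from `p` to parallel segments of the same lengths. The image of the
  geodesic `pq` under `φ` has at least the length `d_g(p, q)`. Integration over the parallel lines
  and over `p`, and a second change of variables (`x` fixed, `z` variable; the determinant of the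
  mixed Hessian of `D` is the same) give the inequality.
* Equality: the inequality holds for any function on the tangent bundle with integral at least
  `d_g(p, q)` along each geodesic `pq`; a small perturbation near a tangent vector of a geodesic
  whose image is too long would violate it. So the images have the lengths `d_g(p, q)`. Let
  `A_x(p)` be the length of the image of the geodesic from `x` to `p` minus `d_g(x, p)`. Then
  `A_x(p) + A_x(q) = 0` if `x` is on the geodesic `pq`, and the triangle inequality shows that the
  lower right Dini derivative of `A_x` along each path in `∂M` is non negative. So `A_x` is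
  constant, `A_x = 0`, and a derivative gives `|dφ(v)|_{g'} = |v|_g`.
-/

namespace Pool.Agent.Results.MP_07cd05_gt.MeanStretch

open Pool.Agent.W9h56.BE

theorem result {E : Type*} [NormedAddCommGroup E] [InnerProductSpace ℝ E] [FiniteDimensional ℝ E]
    [MeasurableSpace E] [BorelSpace E] (hn : 2 ≤ Module.finrank ℝ E)
    (g : E → E →L[ℝ] E →L[ℝ] ℝ) (hg : IsSimpleM g) :
    (∀ (g' : E → E →L[ℝ] E →L[ℝ] ℝ) (φ : E → E), IsMetric g' → IsBdryMap φ → BdryLE g g' →
      vol g ≤ totalStretch g g' φ ∧
      (totalStretch g g' φ = vol g ↔ IsIsometric g g' φ) ∧
      (∀ c > 0, InCone c g g' φ → vol g ≤ vol g' ∧ (vol g' = vol g ↔ IsIsometric g g' φ))) ∧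
    (∀ g' : E → E →L[ℝ] E →L[ℝ] ℝ, IsSimpleM g' → BdryLE g g' → BdryLE g' g →
      vol g' = vol g ∧
      (RelIsometric g g' ↔ ∃ φ, IsBdryMap φ ∧ totalStretch g g' φ ≤ vol g) ∧
      (RelIsometric g g' ↔ ∃ φ c, IsBdryMap φ ∧ InCone c g g' φ)) :=
  ⟨fun _ _ hg' hφ hd => mainA hn hg hg' hφ hd, fun _ hg' hd hd' => mainB hn hg hg' hd hd'⟩

end Pool.Agent.Results.MP_07cd05_gt.MeanStretch
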