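import Pool.Agent.W5h72.BR.OneSource

/-!
# Boundary rigidity: the geodesics from one boundary point are enough

`M` is the closed unit ball of `ℝⁿ`, `n ≥ 3` (a compact manifold with a simple metric is
diffeomorphic to it), `g` and `g'` are simple metrics on `M` with the same boundary distance
function, and `b` is any boundary point. Then `g` and `g'` are isometric by a diffeomorphism of `M`
which is the identity on the boundary if and only if, for all boundary points `q`, `r`, `s`, the
`g'`-geodesics `bq` and `rs` meet whenever the `g`-geodesics `bq` and `rs` meet.

Sketch of the proof. Let `x` be an interior point, let `c` be the `g`-geodesic from `b` through `x`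
and `c'` the corresponding `g'`-geodesic. The `g`-geodesic through `x` with the end point `w`
corresponds to a `g'`-geodesic which meets `c'` in a point `Y(x, w)`.
* The derivative of the equation for `Y` shows that `Y(x, w)` does not change if the geodesic
  rotates about `c`, that is, it depends only on the angle with `c` (dimension at least three).
  By symmetry it is stationary, as a function of the angle, at the right angle.
* Hence all the geodesics orthogonal to `c` in `x` correspond to geodesics through one point `z(x)`
  of `c'`, they are orthogonal to `c'`, and the distances of `x` and of `z(x)` from their end points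
  agree.
* The distance of `z(x)` from `b` is stationary if `x` moves in a direction orthogonal to `c`. It is
  therefore constant along the geodesic spheres with centre `b`, and these reach the boundary, where
  it is equal to the distance of `x` from `b`.
* The map `z` is then an isometry.
-/

open Set Metric
open scoped ContDiff RealInnerProductSpace

namespace Pool.Agent.Results.MP_07cd05_gt.OneSource

open Pool.Agent.W5h72.BR

theorem result (n : ℕ) (hn : 3 ≤ n)
    (g g' : EuclideanSpace ℝ (Fin n) →
      EuclideanSpace ℝ (Fin n) →L[ℝ] EuclideanSpace ℝ (Fin n) →L[ℝ] ℝ)
    (hg : IsSimple g) (hg' : IsSimple g')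
    (hd : ∀ p ∈ sphere (0 : EuclideanSpace ℝ (Fin n)) 1,
      ∀ q ∈ sphere (0 : EuclideanSpace ℝ (Fin n)) 1, gdist g p q = gdist g' p q)
    (b : EuclideanSpace ℝ (Fin n)) (hb : b ∈ sphere (0 : EuclideanSpace ℝ (Fin n)) 1) :
    BoundaryIsometric g g' ↔
      ∀ q ∈ sphere (0 : EuclideanSpace ℝ (Fin n)) 1,
      ∀ r ∈ sphere (0 : EuclideanSpace ℝ (Fin n)) 1,
      ∀ s ∈ sphere (0 : EuclideanSpace ℝ (Fin n)) 1,
        (seg g b q ∩ seg g r s).Nonempty → (seg g' b q ∩ seg g' r s).Nonempty :=
  one_source (by rw [finrank_euclideanSpace_fin]; omega) hg hg' hd hb

end Pool.Agent.Results.MP_07cd05_gt.OneSource
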